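import Pool.Agent.X83.DA.Stm

/-! (YID) of project DA: the derivative identities for `XX` and `YY`. -/

set_option autoImplicit false

namespace Pool.Agent.X151.DA

open MeasureTheory Set Filter Topology Pool.Agent.X83.DA

theorem t (H : Type*) [NormedAddCommGroup H] [InnerProductSpace ℝ H] [CompleteSpace H] :
    Pool.Agent.X83.DA.S_YID H := by
  intro c p g q hp0 hq hp hg
  have cp : Continuous p := continuous_iff_continuousAt.2 fun s => (hp s).continuousAt
  have cg : Continuous g := continuous_iff_continuousAt.2 fun s => (hg s).continuousAt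
  have e0 : ∀ s : ℝ, HasDerivAt (fun s : ℝ => c * s / 2) (c / 2) s := by
    intro s
    have := ((hasDerivAt_id s).const_mul c).div_const 2
    simpa using this
  have e1 : ∀ s : ℝ, HasDerivAt (fun s : ℝ => Real.exp (c * s / 2))
      (Real.exp (c * s / 2) * (c / 2)) s := fun s => (e0 s).exp
  have em : ∀ s : ℝ, HasDerivAt (fun s : ℝ => Real.exp (-(c * s / 2)))
      (Real.exp (-(c * s / 2)) * (-(c / 2))) s := fun s => (e0 s).neg.exp
  have hJ : ∀ k : ℝ → H, Continuous k → ∀ s : ℝ,
      HasDerivAt (fun s : ℝ => ∫ r in (0 : ℝ)..s, (r * Real.exp (c * r / 2)) • k r)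
        ((s * Real.exp (c * s / 2)) • k s) s := by
    intro k hk s
    have hc : Continuous fun r : ℝ => (r * Real.exp (c * r / 2)) • k r := by fun_prop
    exact (hc.integral_hasStrictDerivAt 0 s).hasDerivAt
  have hI : ∀ s : ℝ, HasDerivAt
      (fun s : ℝ => ∫ r in (0 : ℝ)..s, ((c * r / 2 - 1) * Real.exp (c * r / 2)) • g r)
        (((c * s / 2 - 1) * Real.exp (c * s / 2)) • g s) s := by
    intro s
    have hc : Continuous fun r : ℝ => ((c * r / 2 - 1) * Real.exp (c * r / 2)) • g r := by fun_prop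
    exact (hc.integral_hasStrictDerivAt 0 s).hasDerivAt
  have id1 : ∀ s : ℝ, (∫ r in (0 : ℝ)..s, ((c * r / 2 - 1) * Real.exp (c * r / 2)) • g r) =
      ((c * s / 2 - 1) * Real.exp (c * s / 2)) • p s -
        (c ^ 2 / 4) • ∫ r in (0 : ℝ)..s, (r * Real.exp (c * r / 2)) • p r := by
    intro s
    have hd : ∀ s : ℝ, HasDerivAt (fun s : ℝ =>
        (∫ r in (0 : ℝ)..s, ((c * r / 2 - 1) * Real.exp (c * r / 2)) • g r) -
        (((c * s / 2 - 1) * Real.exp (c * s / 2)) • p s -
        (c ^ 2 / 4) • ∫ r in (0 : ℝ)..s, (r * Real.exp (c * r / 2)) • p r)) 0 s := by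
      intro s
      have h1 : HasDerivAt (fun s : ℝ => (c * s / 2 - 1) * Real.exp (c * s / 2))
          ((c / 2) * Real.exp (c * s / 2) + (c * s / 2 - 1) * (Real.exp (c * s / 2) * (c / 2))) s :=
        ((e0 s).sub_const 1).mul (e1 s)
      have h2 := (hI s).sub ((h1.smul (hp s)).sub ((hJ p cp s).const_smul (c ^ 2 / 4)))
      refine h2.congr_deriv ?_
      match_scalars <;> ring
    have := is_const_of_deriv_eq_zero (f := fun s : ℝ =>
        (∫ r in (0 : ℝ)..s, ((c * r / 2 - 1) * Real.exp (c * r / 2)) • g r) -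
        (((c * s / 2 - 1) * Real.exp (c * s / 2)) • p s -
        (c ^ 2 / 4) • ∫ r in (0 : ℝ)..s, (r * Real.exp (c * r / 2)) • p r))
      (fun s => (hd s).differentiableAt) (fun s => (hd s).deriv) s 0
    simp only [intervalIntegral.integral_same, hp0, smul_zero, sub_zero] at this
    exact sub_eq_zero.1 this
  have id2 : ∀ s : ℝ, (∫ r in (0 : ℝ)..s, ((c * r / 2 - 1) * Real.exp (c * r / 2)) • g r) =
      -((s * Real.exp (c * s / 2)) • g s) -
        ∫ r in (0 : ℝ)..s, (r * Real.exp (c * r / 2)) • q r := by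
    intro s
    have hd : ∀ s : ℝ, HasDerivAt (fun s : ℝ =>
        (∫ r in (0 : ℝ)..s, ((c * r / 2 - 1) * Real.exp (c * r / 2)) • g r) -
        (-((s * Real.exp (c * s / 2)) • g s) -
        ∫ r in (0 : ℝ)..s, (r * Real.exp (c * r / 2)) • q r)) 0 s := by
      intro s
      have h1 : HasDerivAt (fun s : ℝ => s * Real.exp (c * s / 2))
          (1 * Real.exp (c * s / 2) + s * (Real.exp (c * s / 2) * (c / 2))) s :=
        (hasDerivAt_id s).mul (e1 s)
      have h2 := (hI s).sub ((h1.smul (hg s)).neg.sub (hJ q hq s))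
      refine h2.congr_deriv ?_
      match_scalars <;> ring
    have := is_const_of_deriv_eq_zero (f := fun s : ℝ =>
        (∫ r in (0 : ℝ)..s, ((c * r / 2 - 1) * Real.exp (c * r / 2)) • g r) -
        (-((s * Real.exp (c * s / 2)) • g s) -
        ∫ r in (0 : ℝ)..s, (r * Real.exp (c * r / 2)) • q r))
      (fun s => (hd s).differentiableAt) (fun s => (hd s).deriv) s 0
    simp only [intervalIntegral.integral_same, zero_mul, zero_smul, neg_zero, sub_zero] at this
    exact sub_eq_zero.1 this
  have hm : ∀ s : ℝ, HasDerivAt (fun s : ℝ => -(s / 2)) (-(1 / 2)) s := fun s =>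
    ((hasDerivAt_id s).div_const 2).neg
  refine ⟨fun s => ?_, fun s => ?_⟩
  · have h1 := ((hm s).smul (hp s)).add (((em s).const_mul (c / 4)).smul (hJ p cp s))
    refine h1.congr_deriv ?_
    unfold YY
    rw [id1 s, Real.exp_neg]
    have hE : Real.exp (c * s / 2) ≠ 0 := (Real.exp_pos _).ne'
    generalize Real.exp (c * s / 2) = E at *
    match_scalars <;> field_simp <;> ring
  · have h1 := ((hm s).smul (hg s)).add (((em s).div_const 2).smul (hI s))
    refine h1.congr_deriv ?_
    unfold YY XX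
    rw [id2 s, Real.exp_neg]
    have hE : Real.exp (c * s / 2) ≠ 0 := (Real.exp_pos _).ne'
    generalize Real.exp (c * s / 2) = E at *
    match_scalars <;> field_simp <;> ring

end Pool.Agent.X151.DA
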